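import Mathlib

/-!
# Three three-point subsets of the line whose Gromov-Hausdorff distances cannot be realised
simultaneously

The sets are `{0, 10, 30}`, `{0, 9, 29}` and `{0, 10, 29}`.
-/

set_option autoImplicit false

namespace Pool.Agent.Results.MP_975509_gt.ThreePoints

open Set Metric GromovHausdorff

/-- The set `{0, a, b}` of real numbers, as a metric space with the metric of `ℝ`. -/
abbrev A (a b : ℝ) : Set ℝ := {0, a, b}

instance (a b : ℝ) : Finite (A a b) := inferInstance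

instance (a b : ℝ) : Nonempty (A a b) := ⟨⟨0, by simp⟩⟩

instance (a b : ℝ) : CompactSpace (A a b) := Finite.compactSpace

/-- The correspondence `0 ↦ 0, a ↦ a', b ↦ b'` bounds the Gromov-Hausdorff distance. -/
lemma ghDist_le (a b a' b' c : ℝ) (ha : 0 < a) (hab : a < b) (ha' : 0 < a') (hab' : a' < b')
    (hc : 0 ≤ c) (h1 : |a - a'| ≤ 2 * c) (h2 : |b - b'| ≤ 2 * c)
    (h3 : |(b - a) - (b' - a')| ≤ 2 * c) :
    ghDist (A a b) (A a' b') ≤ c := by
  classical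
  let f : ℝ → ℝ := fun x => if x = 0 then 0 else if x = a then a' else b'
  have f0 : f 0 = 0 := by simp [f]
  have fa : f a = a' := by simp [f, ha.ne']
  have fb : f b = b' := by simp [f, hab.ne', (ha.trans hab).ne']
  have hf : ∀ x ∈ A a b, f x ∈ A a' b' := by
    rintro x (rfl | rfl | rfl)
    · rw [f0]; simp
    · rw [fa]; simp
    · rw [fb]; simp
  let Φ : ↥(univ : Set (A a b)) → A a' b' := fun x => ⟨f x.1.1, hf _ x.1.2⟩
  have hd : ∀ x y : ↥(univ : Set (A a b)), |dist x y - dist (Φ x) (Φ y)| ≤ 2 * c := by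
    rintro ⟨⟨x, hx⟩, -⟩ ⟨⟨y, hy⟩, -⟩
    change |(|x - y|) - (|f x - f y|)| ≤ 2 * c
    rw [abs_le] at h1 h2 h3 ⊢
    rcases hx with rfl | rfl | rfl <;> rcases hy with rfl | rfl | rfl <;>
      simp only [f0, fa, fb, sub_self, abs_zero, zero_sub, sub_zero, abs_neg] <;>
      constructor <;>
      (try rw [abs_of_pos ha]) <;> (try rw [abs_of_pos ha']) <;>
      (try rw [abs_of_pos (ha.trans hab)]) <;> (try rw [abs_of_pos (ha'.trans hab')]) <;>
      (try rw [abs_of_neg (sub_neg.2 hab)]) <;> (try rw [abs_of_neg (sub_neg.2 hab')]) <;>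
      (try rw [abs_of_pos (sub_pos.2 hab)]) <;> (try rw [abs_of_pos (sub_pos.2 hab')]) <;>
      linarith
  have := ghDist_le_of_approx_subsets Φ (ε₁ := 0) (ε₂ := 2 * c) (ε₃ := 0)
    (fun x => ⟨x, mem_univ x, by simp⟩) (fun y => by
      obtain ⟨y, hy⟩ := y
      rcases hy with rfl | rfl | rfl
      · exact ⟨⟨⟨0, by simp⟩, trivial⟩, by simp [Φ, f0]⟩
      · exact ⟨⟨⟨a, by simp⟩, trivial⟩, by simp [Φ, fa]⟩
      · exact ⟨⟨⟨b, by simp⟩, trivial⟩, by simp [Φ, fb]⟩) hd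
  linarith

/-- If the images of `{0, a, b}` and `{0, a', b'}` have Hausdorff distance less than `r`, there is
an approximate isometry whose graph consists of pairs at distance less than `r`. -/
lemma exists_map {Z : Type*} [MetricSpace Z] {a b a' b' r : ℝ} (φ : A a b → Z) (ψ : A a' b' → Z)
    (hφ : Isometry φ) (hψ : Isometry ψ) (h : hausdorffDist (range φ) (range ψ) < r) :
    ∃ f : A a b → A a' b', (∀ x, dist (φ x) (ψ (f x)) < r) ∧
      ∀ x y, |dist x y - dist (f x) (f y)| < 2 * r := by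
  have hb : hausdorffEDist (range φ) (range ψ) ≠ ⊤ :=
    hausdorffEDist_ne_top_of_nonempty_of_bounded (range_nonempty _) (range_nonempty _)
      (finite_range φ).isBounded (finite_range ψ).isBounded
  have : ∀ x, ∃ y, dist (φ x) (ψ y) < r := by
    intro x
    obtain ⟨_, ⟨y, rfl⟩, hy⟩ := exists_dist_lt_of_hausdorffDist_lt (mem_range_self x) h hb
    exact ⟨y, hy⟩
  choose f hf using this
  refine ⟨f, hf, fun x y => ?_⟩
  rw [← hφ.dist_eq, ← hψ.dist_eq, abs_lt]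
  have h1 := hf x
  have h2 := hf y
  have h3 := dist_triangle4 (φ x) (ψ (f x)) (ψ (f y)) (φ y)
  have h4 := dist_triangle4 (ψ (f x)) (φ x) (φ y) (ψ (f y))
  rw [dist_comm (ψ (f y))] at h3
  rw [dist_comm (ψ (f x)) (φ x)] at h4
  constructor <;> linarith

/-- The three points of `{0, a, b}`. -/
def p0 (a b : ℝ) : A a b := ⟨0, by simp⟩
/-- The three points of `{0, a, b}`. -/
def pa (a b : ℝ) : A a b := ⟨a, by simp⟩
/-- The three points of `{0, a, b}`. -/
def pb (a b : ℝ) : A a b := ⟨b, by simp⟩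

lemma eq_points {a b a' b' : ℝ} (f : A a b → A a' b')
    (hf : ∀ x y, |dist x y - dist (f x) (f y)| < 2 * (3 / 5))
    (h : ∀ u ∈ A a' b', ∀ v ∈ A a' b', ∀ w ∈ A a' b', |(|0 - a|) - (|u - v|)| < 2 * (3 / 5) →
      |(|a - b|) - (|v - w|)| < 2 * (3 / 5) → |(|0 - b|) - (|u - w|)| < 2 * (3 / 5) →
      u = 0 ∧ v = a' ∧ w = b') :
    f (p0 _ _) = p0 _ _ ∧ f (pa _ _) = pa _ _ ∧ f (pb _ _) = pb _ _ := by
  obtain ⟨h1, h2, h3⟩ := h (f (p0 _ _)).1 (f (p0 _ _)).2 (f (pa _ _)).1 (f (pa _ _)).2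
    (f (pb _ _)).1 (f (pb _ _)).2 (hf (p0 _ _) (pa _ _)) (hf (pa _ _) (pb _ _))
    (hf (p0 _ _) (pb _ _))
  exact ⟨Subtype.ext h1, Subtype.ext h2, Subtype.ext h3⟩

lemma not_simultaneous {Z : Type*} [MetricSpace Z] (φ₁ : A 10 30 → Z) (φ₂ : A 9 29 → Z)
    (φ₃ : A 10 29 → Z) (h₁ : Isometry φ₁) (h₂ : Isometry φ₂) (h₃ : Isometry φ₃)
    (h12 : hausdorffDist (range φ₁) (range φ₂) < 3 / 5)
    (h23 : hausdorffDist (range φ₂) (range φ₃) < 3 / 5)
    (h13 : hausdorffDist (range φ₁) (range φ₃) < 3 / 5) : False := by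
  obtain ⟨f, hf, hf'⟩ := exists_map φ₁ φ₂ h₁ h₂ h12
  obtain ⟨g, hg, hg'⟩ := exists_map φ₂ φ₃ h₂ h₃ h23
  obtain ⟨k, hk, hk'⟩ := exists_map φ₁ φ₃ h₁ h₃ h13
  have e1 := eq_points f hf' (by
    rintro u (rfl | rfl | rfl) v (rfl | rfl | rfl) w (rfl | rfl | rfl) <;> norm_num [abs_of_neg])
  have e2 := eq_points g hg' (by
    rintro u (rfl | rfl | rfl) v (rfl | rfl | rfl) w (rfl | rfl | rfl) <;> norm_num [abs_of_neg])
  have e3 := eq_points k hk' (by
    rintro u (rfl | rfl | rfl) v (rfl | rfl | rfl) w (rfl | rfl | rfl) <;> norm_num [abs_of_neg])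
  have d1 : dist (φ₁ (p0 _ _)) (φ₁ (pb _ _)) = 30 := by
    rw [h₁.dist_eq]
    change |(0 : ℝ) - 30| = 30
    norm_num
  have d2 : dist (φ₂ (p0 _ _)) (φ₂ (pa _ _)) = 9 := by
    rw [h₂.dist_eq]
    change |(0 : ℝ) - 9| = 9
    norm_num
  have d3 : dist (φ₃ (pa _ _)) (φ₃ (pb _ _)) = 19 := by
    rw [h₃.dist_eq]
    change |(10 : ℝ) - 29| = 19
    norm_num
  have a1 := hf (p0 _ _)
  rw [e1.1] at a1
  have a2 := hg (pa _ _)
  rw [e2.2.1] at a2
  have a3 := hk (pb _ _)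
  rw [e3.2.2] at a3
  have t1 := dist_triangle4 (φ₁ (p0 _ _)) (φ₂ (p0 _ _)) (φ₂ (pa _ _)) (φ₃ (pa _ _))
  have t2 := dist_triangle4 (φ₁ (p0 _ _)) (φ₃ (pa _ _)) (φ₃ (pb _ _)) (φ₁ (pb _ _))
  rw [dist_comm (φ₃ (pb _ _))] at t2
  linarith

/-- There are three three-point subsets of the real line such that for all isometric embeddings of
them into a metric space, the Hausdorff distance of the images of some two of them exceeds their
Gromov-Hausdorff distance. -/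
theorem result : ∃ (A₁ A₂ A₃ : Set ℝ) (_ : Finite A₁) (_ : Finite A₂) (_ : Finite A₃)
    (_ : Nonempty A₁) (_ : Nonempty A₂) (_ : Nonempty A₃),
    A₁.ncard = 3 ∧ A₂.ncard = 3 ∧ A₃.ncard = 3 ∧
    ∀ (Z : Type*) (_ : MetricSpace Z) (φ₁ : A₁ → Z) (φ₂ : A₂ → Z) (φ₃ : A₃ → Z),
      Isometry φ₁ → Isometry φ₂ → Isometry φ₃ →
        ghDist A₁ A₂ < hausdorffDist (range φ₁) (range φ₂) ∨
        ghDist A₂ A₃ < hausdorffDist (range φ₂) (range φ₃) ∨
        ghDist A₁ A₃ < hausdorffDist (range φ₁) (range φ₃) := by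
  refine ⟨A 10 30, A 9 29, A 10 29, inferInstance, inferInstance, inferInstance, inferInstance,
    inferInstance, inferInstance, ?_, ?_, ?_, fun Z _ φ₁ φ₂ φ₃ h₁ h₂ h₃ => ?_⟩
  · rw [Set.ncard_eq_toFinset_card']
    norm_num
  · rw [Set.ncard_eq_toFinset_card']
    norm_num
  · rw [Set.ncard_eq_toFinset_card']
    norm_num
  have g1 : ghDist (A 10 30) (A 9 29) ≤ 1 / 2 := by
    apply ghDist_le <;> norm_num
  have g2 : ghDist (A 9 29) (A 10 29) ≤ 1 / 2 := by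
    apply ghDist_le <;> norm_num [abs_of_neg]
  have g3 : ghDist (A 10 30) (A 10 29) ≤ 1 / 2 := by
    apply ghDist_le <;> norm_num
  by_contra hcon
  push Not at hcon
  obtain ⟨c1, c2, c3⟩ := hcon
  exact not_simultaneous φ₁ φ₂ φ₃ h₁ h₂ h₃ (by linarith) (by linarith) (by linarith)

end Pool.Agent.Results.MP_975509_gt.ThreePoints
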